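import Pool.Agent.H5.DPG.Stmts

set_option autoImplicit false

namespace Pool.DPG

namespace SBSaux

/-- `Z ≤ X` as masks. -/
def Le (Z X : List Bool) : Prop := ∀ v : ℕ, Z.getD v false = true → X.getD v false = true

/-- The list without the cut. -/
def sb0 : List Bool → List (List Bool)
  | [] => [[]]
  | b :: X => (sb0 X).map (List.cons false) ++ if b = true then (sb0 X).map (List.cons true) else []

lemma cnt_cons (b : Bool) (X : List Bool) : cnt (b :: X) = cnt X + (if b = true then 1 else 0) := by
  cases b <;> simp [cnt]

lemma sb0_len (X : List Bool) : (sb0 X).length = 2 ^ cnt X := by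
  induction X with
  | nil => simp [sb0, cnt]
  | cons b X ih =>
    rw [cnt_cons]
    cases b
    · simp [sb0, ih]
    · simp [sb0, ih, pow_succ]
      omega

lemma sbs_cons (cap : ℕ) (b : Bool) (X : List Bool) : sbs cap (b :: X) =
    ((sbs cap X).map (List.cons false) ++
      if b = true then (sbs cap X).map (List.cons true) else []).take cap := rfl

lemma sbs_eq (cap : ℕ) (X : List Bool) (h : 2 ^ cnt X ≤ cap) : sbs cap X = sb0 X := by
  induction X with
  | nil => rfl
  | cons b X ih =>
    have h1 : 2 ^ cnt X ≤ cap := by
      refine le_trans (Nat.pow_le_pow_right (by norm_num) ?_) h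
      rw [cnt_cons]
      omega
    rw [sbs_cons, ih h1]
    have h2 : ((sb0 X).map (List.cons false) ++
      if b = true then (sb0 X).map (List.cons true) else []) = sb0 (b :: X) := rfl
    rw [h2]
    refine List.take_of_length_le ?_
    rw [sb0_len]
    exact h

lemma le_nil (X : List Bool) : Le [] X := by
  intro v hv
  simp at hv

lemma le_cons {c b : Bool} {Z X : List Bool} (h0 : c = true → b = true) (h : Le Z X) :
    Le (c :: Z) (b :: X) := by
  intro v hv
  cases v with
  | zero =>
    rw [List.getD_cons_zero] at hv ⊢
    exact h0 hv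
  | succ v =>
    rw [List.getD_cons_succ] at hv ⊢
    exact h v hv

lemma le_tail {c b : Bool} {Z X : List Bool} (h : Le (c :: Z) (b :: X)) : Le Z X := by
  intro v hv
  have := h (v + 1)
  rw [List.getD_cons_succ, List.getD_cons_succ] at this
  exact this hv

lemma le_head {c b : Bool} {Z X : List Bool} (h : Le (c :: Z) (b :: X)) (hc : c = true) :
    b = true := by
  have := h 0
  rw [List.getD_cons_zero, List.getD_cons_zero] at this
  exact this hc

lemma mem_cons (b : Bool) (X : List Bool) (c : Bool) (Z : List Bool) :
    c :: Z ∈ sb0 (b :: X) ↔ (c = true → b = true) ∧ Z ∈ sb0 X := by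
  cases b <;> cases c <;> simp [sb0]

lemma mem_nil_not (b : Bool) (X : List Bool) : [] ∉ sb0 (b :: X) := by
  cases b <;> simp [sb0]

lemma mem_iff (X Z : List Bool) : Z ∈ sb0 X ↔ Z.length = X.length ∧ Le Z X := by
  induction X generalizing Z with
  | nil =>
    simp only [sb0, List.mem_singleton, List.length_nil, List.length_eq_zero_iff]
    constructor
    · rintro rfl
      exact ⟨rfl, le_nil _⟩
    · intro h
      exact h.1
  | cons b X ih =>
    cases Z with
    | nil => simp [mem_nil_not]
    | cons c Z =>
      rw [mem_cons, ih]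
      simp only [List.length_cons, add_left_inj]
      constructor
      · rintro ⟨h0, h1, h2⟩
        exact ⟨h1, le_cons h0 h2⟩
      · rintro ⟨h1, h2⟩
        exact ⟨le_head h2, h1, le_tail h2⟩

lemma pw (X : List Bool) : (sb0 X).Pairwise (fun Z W => Le W Z → W = Z) := by
  induction X with
  | nil => simp [sb0]
  | cons b X ih =>
    have hf : ∀ c : Bool, ((sb0 X).map (List.cons c)).Pairwise (fun Z W => Le W Z → W = Z) := by
      intro c
      rw [List.pairwise_map]
      refine ih.imp ?_
      intro Z W h hle
      rw [h (le_tail hle)]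
    cases b
    · simpa [sb0] using hf false
    · show ((sb0 X).map (List.cons false) ++ if true = true then (sb0 X).map (List.cons true)
        else []).Pairwise _
      rw [if_pos rfl, List.pairwise_append]
      refine ⟨hf false, hf true, ?_⟩
      intro Z hZ W hW hle
      rw [List.mem_map] at hZ hW
      obtain ⟨Z', -, rfl⟩ := hZ
      obtain ⟨W', -, rfl⟩ := hW
      exact absurd (le_head hle rfl) (by simp)

end SBSaux

open SBSaux in
theorem sbs_thm : SBSStmt := by
  refine ⟨?_, ?_⟩
  · intro cap X
    induction X with
    | nil =>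
      refine ⟨by simp [sbs], ?_⟩
      intro Z hZ
      have : Z ∈ ([[]] : List (List Bool)) := hZ
      simp at this
      simp [this]
    | cons b X ih =>
      rw [sbs_cons]
      refine ⟨?_, ?_⟩
      · rw [List.length_take]
        omega
      · intro Z hZ
        have h := List.mem_of_mem_take hZ
        rw [List.mem_append] at h
        rcases h with h | h
        · rw [List.mem_map] at h
          obtain ⟨Z', h1, rfl⟩ := h
          simp [ih.2 _ h1]
        · cases b
          · simp at h
          · rw [if_pos rfl, List.mem_map] at h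
            obtain ⟨Z', h1, rfl⟩ := h
            simp [ih.2 _ h1]
  · intro cap X h
    rw [sbs_eq cap X h]
    refine ⟨fun Z hZ hle => (mem_iff X Z).2 ⟨hZ, hle⟩, ?_⟩
    intro l₁ l₂ Z Z' heq hlen hle hne
    have hZ : Z ∈ sb0 X := by
      rw [heq]
      simp
    have hZX := ((mem_iff X Z).1 hZ).2
    have hZ' : Z' ∈ sb0 X := (mem_iff X Z').2 ⟨hlen, fun v hv => hZX v (hle v hv)⟩
    rw [heq, List.mem_append, List.mem_cons] at hZ'
    rcases hZ' with h1 | h1 | h1
    · exact h1
    · exact absurd h1 hne
    · have hp := pw X
      rw [heq, List.pairwise_append] at hp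
      have hp2 := hp.2.1
      rw [List.pairwise_cons] at hp2
      exact absurd (hp2.1 Z' h1 hle) hne

end Pool.DPG
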